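import Pool.Agent.Helper41.LD4.Defs

/-!
# LD4, block SYb3: the system of test functions for a base with a rational power
-/

set_option autoImplicit false

namespace Pool.Agent.Helper17.LD4

open Set MeasureTheory
open Pool.Agent.Helper41.LD (haar ind)
open Pool.Agent.Helper41.LD4

private theorem mem17 {b K : ℕ} {q : ℕ × ℕ × ℕ × ℕ} (hq : q ∈ Ib b K) :
    q.1 < b ∧ 1 ≤ q.1 ∧ q.2.1 < 2 ∧ q.2.2.1 < K ∧
      ((q.2.1 = 0 ∧ q.2.2.1 = 0 ∧ q.2.2.2 = 0) ∨ (q.2.1 = 1 ∧ q.2.2.2 < 2 ^ q.2.2.1)) := by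
  unfold Ib at hq
  rw [Finset.mem_filter, Finset.mem_product, Finset.mem_product, Finset.mem_product, Finset.mem_range, Finset.mem_range,
    Finset.mem_range] at hq
  exact ⟨hq.1.1, hq.2.1, hq.1.2.1, hq.1.2.2.1, hq.2.2⟩

/-- a sum over the index set as an iterated sum, for the terms with a bound on the fibres -/
private theorem sum17 {b K : ℕ} (F : ℕ × ℕ × ℕ × ℕ → ℝ) (u : ℕ → ℝ)
    (h : ∀ r t k : ℕ, k < K →
      ∑ i ∈ (Finset.range (2 ^ K)).filter (fun i => (r, t, k, i) ∈ Ib b K), F (r, t, k, i) ≤ u k) :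
    ∑ q ∈ Ib b K, F q ≤ 2 * b * ∑ k ∈ Finset.range K, u k := by
  have e1 : ∑ q ∈ Ib b K, F q = ∑ q ∈ Finset.range b ×ˢ Finset.range 2 ×ˢ Finset.range K ×ˢ Finset.range (2 ^ K),
      if q ∈ Ib b K then F q else 0 := by
    rw [← Finset.sum_filter]
    refine Finset.sum_congr ?_ fun _ _ => rfl
    ext q
    rw [Finset.mem_filter]
    constructor
    · intro hq
      refine ⟨?_, hq⟩
      unfold Ib at hq
      exact (Finset.mem_filter.1 hq).1
    · exact fun hq => hq.2
  rw [e1, Finset.sum_product]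
  have e2 : ∀ r ∈ Finset.range b, ∑ y ∈ Finset.range 2 ×ˢ Finset.range K ×ˢ Finset.range (2 ^ K),
      (if (r, y) ∈ Ib b K then F (r, y) else 0) ≤ 2 * ∑ k ∈ Finset.range K, u k := by
    intro r _
    rw [Finset.sum_product]
    have e3 : ∀ t ∈ Finset.range 2, ∑ y ∈ Finset.range K ×ˢ Finset.range (2 ^ K),
        (if (r, t, y) ∈ Ib b K then F (r, t, y) else 0) ≤ ∑ k ∈ Finset.range K, u k := by
      intro t _
      rw [Finset.sum_product]
      refine Finset.sum_le_sum fun k hk => ?_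
      rw [← Finset.sum_filter]
      exact h r t k (Finset.mem_range.1 hk)
    refine (Finset.sum_le_sum e3).trans ?_
    rw [Finset.sum_const, Finset.card_range, nsmul_eq_mul]
    exact le_of_eq (by norm_num)
  refine (Finset.sum_le_sum e2).trans ?_
  rw [Finset.sum_const, Finset.card_range, nsmul_eq_mul]
  exact le_of_eq (by ring)

private theorem psi_abs17 (r a : ℕ) : |psi r a| ≤ 1 := by
  unfold psi
  split_ifs with h1 h2 h3
  · simp
  · have h4 : (1 : ℝ) ≤ r := by
      have : 1 ≤ r := by omega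
      exact_mod_cast this
    rw [abs_of_nonneg (by positivity)]
    rw [div_le_one (by linarith)]
    exact h4
  · simp
  · simp

private theorem haar_abs17 (k i : ℕ) (t : ℝ) : |haar k i t| ≤ 1 := by
  unfold haar ind
  split_ifs <;> norm_num

private theorem haar_idx17 {k i : ℕ} {t : ℝ} (h : haar k i t ≠ 0) :
    (i : ℤ) = ⌊(2 : ℝ) ^ (k + 1) * Int.fract t⌋ / 2 := by
  by_contra hno
  apply h
  unfold haar ind
  rw [if_neg, if_neg, sub_zero]
  · intro h1
    rw [h1] at hno
    push_cast at hno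
    omega
  · intro h1
    rw [h1] at hno
    push_cast at hno
    omega

private theorem fb_abs17 (b : ℕ) (q : ℕ × ℕ × ℕ × ℕ) (x : ℝ) : |fb b q x| ≤ 1 := by
  unfold fb
  rw [abs_mul]
  have h1 := psi_abs17 q.1 ⌊(b : ℝ) * Int.fract x⌋₊
  have h2 : |(if q.2.1 = 0 then (1 : ℝ) else haar q.2.2.1 q.2.2.2 (b * x))| ≤ 1 := by
    split_ifs
    · simp
    · exact haar_abs17 _ _ _
  calc |psi q.1 ⌊(b : ℝ) * Int.fract x⌋₊| * |(if q.2.1 = 0 then (1 : ℝ) else haar q.2.2.1 q.2.2.2 (b * x))| ≤ 1 * 1 :=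
        mul_le_mul h1 h2 (abs_nonneg _) zero_le_one
    _ = 1 := by norm_num

private theorem fac17 {b r : ℕ} (hb : 2 ≤ b) : 1 / (b : ℝ) ≤ (1 + 1 / (r : ℝ)) / b ∧
    (1 ≤ r → (1 + 1 / (r : ℝ)) / b ≤ 1) := by
  have hb0 : (2 : ℝ) ≤ b := by exact_mod_cast hb
  constructor
  · apply div_le_div_of_nonneg_right _ (by linarith)
    have : (0 : ℝ) ≤ 1 / (r : ℝ) := by positivity
    linarith
  · intro hr
    have hr0 : (1 : ℝ) ≤ r := by exact_mod_cast hr
    rw [div_le_one (by linarith)]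
    have : 1 / (r : ℝ) ≤ 1 := by
      rw [div_le_one (by linarith)]; exact hr0
    linarith

/-- SYb3, from SYb1 and SYb2 -/
theorem sys_b_of {b K : ℕ} (hb : 2 ≤ b) (hK : 1 ≤ K)
    (hfn : ∀ q ∈ Ib b K, Fn (sysN b K) (sysm b) (sysm b * sysv b q) (fb b q))
    (horth : ∀ q ∈ Ib b K, ∀ q' ∈ Ib b K, ∫ t in (0 : ℝ)..1, fb b q t * fb b q' t = if q = q' then sysv b q else 0) :
    Sys (sysI b K) (sysf b) (sysv b) (syslev b K) K (sysN b K) (sysm b) := by
  have hb0 : b ≠ 0 := by omega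
  have hbr : (2 : ℝ) ≤ b := by exact_mod_cast hb
  have hbp : (0 : ℝ) < b := by linarith
  have hI : sysI b K = Ib b K := by unfold sysI; rw [if_neg hb0]
  have hf : sysf b = fb b := by
    funext q; unfold sysf; rw [if_neg hb0]
  have hm : sysm b = 4 * b := by unfold sysm; rw [if_neg hb0]
  have hN : sysN b K = b * 2 ^ K := by unfold sysN; rw [if_neg hb0]
  have hv : ∀ q, sysv b q = (1 + 1 / (q.1 : ℝ)) / b * (1 / 2) ^ q.2.2.1 := by
    intro q; unfold sysv; rw [if_neg hb0]
  have hl : ∀ q, syslev b K q = (q.1 * 2 + q.2.1) * K + q.2.2.1 := by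
    intro q; unfold syslev; rw [if_neg hb0]
  have h2K : (1 : ℝ) ≤ 2 ^ K := one_le_pow₀ (by norm_num)
  have hKr : (1 : ℝ) ≤ K := by exact_mod_cast hK
  -- the bounds of `v`
  have hpow : ∀ l : ℕ, (1 / (2 : ℝ)) ^ l ≤ 1 := fun l => pow_le_one₀ (by norm_num) (by norm_num)
  have hvhi : ∀ q ∈ Ib b K, sysv b q ≤ 1 := by
    intro q hq
    obtain ⟨h1, h2, h3, h4, h5⟩ := mem17 hq
    rw [hv]
    have k1 := (fac17 (r := q.1) hb).2 h2
    calc (1 + 1 / (q.1 : ℝ)) / b * (1 / 2) ^ q.2.2.1 ≤ 1 * 1 :=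
          mul_le_mul k1 (hpow _) (by positivity) zero_le_one
      _ = 1 := by norm_num
  -- the number of the indices over `(r, t, k)`
  have hcount : ∀ r t k : ℕ,
      (((Finset.range (2 ^ K)).filter (fun i => (r, t, k, i) ∈ Ib b K)).card : ℝ) ≤ 2 ^ k := by
    intro r t k
    have hsub : (Finset.range (2 ^ K)).filter (fun i => (r, t, k, i) ∈ Ib b K) ⊆ Finset.range (2 ^ k) := by
      intro i hi
      rw [Finset.mem_filter] at hi
      obtain ⟨-, -, -, -, h5⟩ := mem17 hi.2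
      rw [Finset.mem_range]
      rcases h5 with ⟨-, -, h6⟩ | ⟨-, h6⟩
      · simp only at h6
        rw [h6]; positivity
      · exact h6
    have := Finset.card_le_card hsub
    rw [Finset.card_range] at this
    exact_mod_cast this
  refine
    { m1 := ?_
      N1 := ?_
      N2 := ?_
      card := ?_
      fn := ?_
      v_lo := ?_
      v_hi := ?_
      v_sum := ?_
      orth := ?_
      norm := ?_
      lev_lt := ?_
      lev_sum := ?_ }
  · rw [hm]; omega
  · rw [hN]
    exact Nat.one_le_iff_ne_zero.2 (by positivity)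
  · rw [hN, hm]
    exact Nat.mul_le_mul_right _ (by omega)
  · rw [hI, hm]
    have h1 : ∑ q ∈ Ib b K, (1 : ℝ) ≤ 2 * b * ∑ k ∈ Finset.range K, (2 : ℝ) ^ k := by
      apply sum17 (fun _ => (1 : ℝ)) (fun k => (2 : ℝ) ^ k)
      intro r t k _
      rw [Finset.sum_const, nsmul_eq_mul, mul_one]
      exact hcount r t k
    have h2 : ∑ k ∈ Finset.range K, (2 : ℝ) ^ k ≤ 2 ^ K := by
      rw [geom_sum_eq (by norm_num)]
      norm_num
    rw [Finset.sum_const, nsmul_eq_mul, mul_one] at h1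
    have h3 : ((Ib b K).card : ℝ) ≤ 4 * (b : ℝ) * 2 ^ K := by
      refine h1.trans ?_
      calc 2 * (b : ℝ) * ∑ k ∈ Finset.range K, (2 : ℝ) ^ k ≤ 2 * (b : ℝ) * 2 ^ K :=
            mul_le_mul_of_nonneg_left h2 (by positivity)
        _ ≤ 4 * (b : ℝ) * 2 ^ K := by
            apply mul_le_mul_of_nonneg_right _ (by positivity)
            linarith
    exact_mod_cast h3
  · intro q hq
    rw [hI] at hq
    rw [hf]
    exact hfn q hq
  · intro q hq
    rw [hI] at hq
    obtain ⟨h1, h2, h3, h4, h5⟩ := mem17 hq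
    rw [hv, hm]
    push_cast
    have k1 := (fac17 (r := q.1) hb).1
    have k5 : 1 / (2 : ℝ) ^ K ≤ (1 / 2) ^ q.2.2.1 := by
      rw [div_pow, one_pow]
      exact one_div_le_one_div_of_le (by positivity) (pow_le_pow_right₀ (by norm_num) h4.le)
    have k6 : 1 / (b : ℝ) * (1 / 2 ^ K) ≤ (1 + 1 / (q.1 : ℝ)) / b * (1 / 2) ^ q.2.2.1 :=
      mul_le_mul k1 k5 (by positivity) (by positivity)
    refine le_trans ?_ k6
    have e1 : 1 / (b : ℝ) * (1 / 2 ^ K) = 1 / ((b : ℝ) * 2 ^ K) := by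
      field_simp
    rw [e1]
    apply one_div_le_one_div_of_le (by positivity)
    apply mul_le_mul_of_nonneg_right _ (by positivity)
    linarith
  · intro q hq
    rw [hI] at hq
    exact hvhi q hq
  · rw [hI, hm]
    have h1 : ∑ q ∈ Ib b K, sysv b q ≤ 2 * b * ∑ k ∈ Finset.range K, (1 : ℝ) := by
      apply sum17 (sysv b) (fun _ => (1 : ℝ))
      intro r t k _
      rcases ((Finset.range (2 ^ K)).filter (fun i => (r, t, k, i) ∈ Ib b K)).eq_empty_or_nonempty with he | ⟨i₀, hi₀⟩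
      · rw [he]; simp
      · obtain ⟨-, g2, -, -, -⟩ := mem17 (Finset.mem_filter.1 hi₀).2
        simp only at g2
        have hval : ∀ i, sysv b (r, t, k, i) = (1 + 1 / (r : ℝ)) / b * (1 / 2) ^ k := fun i => hv _
        rw [Finset.sum_congr rfl fun i _ => hval i, Finset.sum_const, nsmul_eq_mul]
        have k1 := (fac17 (r := r) hb).2 g2
        have k0 : 0 ≤ (1 + 1 / (r : ℝ)) / b := by positivity
        calc (((Finset.range (2 ^ K)).filter (fun i => (r, t, k, i) ∈ Ib b K)).card : ℝ) *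
              ((1 + 1 / (r : ℝ)) / b * (1 / 2) ^ k) ≤ (2 : ℝ) ^ k * ((1 + 1 / (r : ℝ)) / b * (1 / 2) ^ k) :=
              mul_le_mul_of_nonneg_right (hcount r t k) (by positivity)
          _ = (2 : ℝ) ^ k * (1 / 2) ^ k * ((1 + 1 / (r : ℝ)) / b) := by ring
          _ = (1 + 1 / (r : ℝ)) / b := by
              rw [← mul_pow, mul_one_div_cancel (by norm_num : (2 : ℝ) ≠ 0), one_pow, one_mul]
          _ ≤ 1 := k1
    refine h1.trans ?_
    rw [Finset.sum_const, Finset.card_range, nsmul_eq_mul, mul_one]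
    push_cast
    apply mul_le_mul_of_nonneg_right _ (Nat.cast_nonneg K)
    linarith
  · intro q hq q' hq' hne
    rw [hI] at hq hq'
    rw [hf, horth q hq q' hq', if_neg hne]
  · intro q hq
    rw [hI] at hq
    rw [hf, horth q hq q hq, if_pos rfl]
  · intro q hq
    rw [hI] at hq
    obtain ⟨h1, h2, h3, h4, -⟩ := mem17 hq
    rw [hl, hm]
    calc (q.1 * 2 + q.2.1) * K + q.2.2.1 < (q.1 * 2 + q.2.1) * K + K := by omega
      _ = (q.1 * 2 + q.2.1 + 1) * K := by ring
      _ ≤ 4 * b * K := Nat.mul_le_mul_right K (by omega)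
  · intro lv x
    rw [hI, hf]
    by_cases hall : ∀ q ∈ (Ib b K).filter (fun q => syslev b K q = lv), |fb b q x| = 0
    · rw [Finset.sum_eq_zero hall]; exact zero_le_one
    · push Not at hall
      obtain ⟨q₀, hq₀, hne⟩ := hall
      have key : ∀ q ∈ (Ib b K).filter (fun q => syslev b K q = lv), q ≠ q₀ → |fb b q x| = 0 := by
        intro q hq hqq
        by_contra hq1
        apply hqq
        rw [Finset.mem_filter, hl] at hq hq₀
        obtain ⟨-, -, a3, a4, a5⟩ := mem17 hq.1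
        obtain ⟨-, -, b3, b4, b5⟩ := mem17 hq₀.1
        have e1 : (q.1 * 2 + q.2.1) * K + q.2.2.1 = (q₀.1 * 2 + q₀.2.1) * K + q₀.2.2.1 := hq.2.trans hq₀.2.symm
        have e2 : q.2.2.1 = q₀.2.2.1 := by
          have := congrArg (fun n => n % K) e1
          simp only [Nat.mul_add_mod_self_right, Nat.mod_eq_of_lt a4, Nat.mod_eq_of_lt b4] at this
          exact this
        have e3 : q.1 * 2 + q.2.1 = q₀.1 * 2 + q₀.2.1 := by
          rw [e2] at e1
          exact Nat.eq_of_mul_eq_mul_right hK (Nat.add_right_cancel e1)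
        have e4 : q.2.1 = q₀.2.1 := by omega
        have e5 : q.1 = q₀.1 := by omega
        -- the last index
        have hi : ∀ p : ℕ × ℕ × ℕ × ℕ, p.2.1 = 1 → |fb b p x| ≠ 0 →
            (p.2.2.2 : ℤ) = ⌊(2 : ℝ) ^ (p.2.2.1 + 1) * Int.fract (b * x)⌋ / 2 := by
          intro p hp1 hp
          apply haar_idx17
          intro hno
          apply hp
          unfold fb
          rw [if_neg (by omega), hno, mul_zero, abs_zero]
        have e6 : q.2.2.2 = q₀.2.2.2 := by
          rcases a5 with ⟨c1, -, c3⟩ | ⟨c1, -⟩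
          · rcases b5 with ⟨-, -, d3⟩ | ⟨d1, -⟩
            · rw [c3, d3]
            · omega
          · have h6 := hi q c1 hq1
            have h7 := hi q₀ (by omega) hne
            rw [e2, ← h7] at h6
            exact_mod_cast h6
        exact Prod.ext e5 (Prod.ext e4 (Prod.ext e2 e6))
      rw [Finset.sum_eq_single_of_mem q₀ hq₀ key]
      exact fb_abs17 b q₀ x

end Pool.Agent.Helper17.LD4
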