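import Pool.Agent.Helper41.LD4.Cst
import Pool.Agent.Helper5.LD4.L12
import Pool.Agent.Helper96.LD4.Sy0
import Pool.Agent.Helper81.LD4.SYb2
import Pool.Agent.Helper17.LD4.SysB
import Pool.Agent.Helper36.LD4.SYb1

/-!
# Project LD4, block SYS: the system of a class, with the common constants
-/

set_option autoImplicit false

namespace Pool.Agent.Helper17.LD4

open Set MeasureTheory Filter Topology
open Pool.Agent.Helper41.LD (av var haar DiscLe Dioph Kk)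
open Pool.Agent.Helper41.LD2 (EqA)
open Pool.Agent.Helper41.LD3 (Cst Us tm fr lamG fr_geo tm_mono tm_spec)
open Pool.Agent.Helper41.LD4
open Pool.Agent.Helper5.LD4 (lin_Wd4)
open Pool.Agent.Helper96.LD4 (sys_zero)
open Pool.Agent.Helper81.LD4 (fb_orth)
open Pool.Agent.Helper36.LD4 (fb_fn)

/-- the system of the type `b ≥ 2` -/
theorem sys_b {b K : ℕ} (hb : 2 ≤ b) (hK : 1 ≤ K) : Sys (sysI b K) (sysf b) (sysv b) (syslev b K) K (sysN b K) (sysm b) :=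
  sys_b_of hb hK (fun _ hq => fb_fn hb hK hq) (fun _ hq _ hq' => fb_orth hb hK hq hq')

section

variable {τ : ℕ → ℝ} {ty : ℕ → ℕ × ℕ × ℕ} {g Q R CF DF Cb m Cq G K : ℕ}

/-- SYS1: `sys_zero`, `sys_b` together, with the kernel -/
theorem sys_all {p : ℕ} (hp : p = 0 ∨ 2 ≤ p) (hK : 1 ≤ K) : Sys (sysI p K) (sysf p) (sysv p) (syslev p K) K (sysN p K) (sysm p) := by
  rcases hp with rfl | hp
  · exact sys_zero hK
  · exact sys_b hp hK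

/-- the system of the class `s` -/
theorem sys_cls17 (H : Cst4 τ ty g Q R CF DF Cb m Cq G) (hK : 1 ≤ K) {s : ℕ} (hs : s < g * Q) :
    Sys (sysI (ty (s / Q)).2.1 K) (sysf (ty (s / Q)).2.1) (sysv (ty (s / Q)).2.1) (syslev (ty (s / Q)).2.1 K) K
      (sysN (ty (s / Q)).2.1 K) (sysm (ty (s / Q)).2.1) := by
  refine sys_all ?_ hK
  rcases H.hty _ (Cst.idx_lt hs) with h | h
  · exact Or.inl h.2
  · have h1 := h.hq
    have h2 := h.hpq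
    exact Or.inr (by omega)

theorem Wd_mono17 {F : ℕ → ℝ → ℝ} {β w w' : ℝ} {n : ℕ} {a ℓ : ℝ} (h : Wd F β w n a ℓ) (hw : w ≤ w') : Wd F β w' n a ℓ := by
  have hβ : 0 < β := by linarith [h.hβ]
  have hℓ := h.pos
  refine ⟨h.pos, h.hβ, h.w0.trans hw, h.meas, h.bdd, fun j hj => (h.tail j hj).trans ?_, fun j₁ j₂ h1 h2 => (h.cov j₁ j₂ h1 h2).trans ?_⟩
  · gcongr
  · gcongr

/-- SYS2: windows -/
theorem GG_Wd (H : Cst4 τ ty g Q R CF DF Cb m Cq G) (c : ℝ → ℝ) (hK : 1 ≤ K) {ℓst ℓ a : ℝ} (hℓ : 0 < ℓ) (hst : ℓ ≤ ℓst)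
    {p : Σ _ : ℕ, ℕ × ℕ × ℕ × ℕ} (hp : p ∈ PP ty g Q K) :
    Wd (GG τ ty c Q ℓst p) (τ (p.1 / Q) ^ Q) (3 * (m : ℝ) ^ 2 * sysv (ty (p.1 / Q)).2.1 p.2) (tm τ Q p.1 ℓ - tm τ Q p.1 ℓst) a ℓ := by
  obtain ⟨h1, h2⟩ := Finset.mem_sigma.1 hp
  have hs := Finset.mem_range.1 h1
  have S := sys_cls17 H hK hs
  have hlt := H.base.lt hs
  have hQ := H.base.hQ
  have hm : ((sysm (ty (p.1 / Q)).2.1 : ℕ) : ℝ) ≤ m := by exact_mod_cast H.hm _ (Cst.idx_lt hs)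
  have hm0 : (0 : ℝ) ≤ (sysm (ty (p.1 / Q)).2.1 : ℕ) := Nat.cast_nonneg _
  have hv : 0 ≤ sysv (ty (p.1 / Q)).2.1 p.2 := le_trans (by positivity) (S.v_lo _ h2)
  have hW : Wd (GG τ ty c Q ℓst p) (τ (p.1 / Q) ^ Q)
      (3 * (sysm (ty (p.1 / Q)).2.1 : ℕ) * ((sysm (ty (p.1 / Q)).2.1 : ℕ) * sysv (ty (p.1 / Q)).2.1 p.2))
      (tm τ Q p.1 ℓ - tm τ Q p.1 ℓst) a ℓ := by
    refine lin_Wd4 (S.fn _ h2) S.m1 (mul_nonneg hm0 hv) (fr_geo hQ hlt _) hℓ ?_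
    show 1 ≤ fr τ Q p.1 (tm τ Q p.1 ℓst + (tm τ Q p.1 ℓ - tm τ Q p.1 ℓst)) * ℓ
    rw [Nat.add_sub_cancel' (tm_mono hQ hlt hℓ hst)]
    exact tm_spec hQ hlt hℓ
  refine Wd_mono17 hW ?_
  have h3 : ((sysm (ty (p.1 / Q)).2.1 : ℕ) : ℝ) ^ 2 ≤ (m : ℝ) ^ 2 := pow_le_pow_left₀ hm0 hm 2
  calc 3 * ((sysm (ty (p.1 / Q)).2.1 : ℕ) : ℝ) * ((sysm (ty (p.1 / Q)).2.1 : ℕ) * sysv (ty (p.1 / Q)).2.1 p.2)
      = 3 * ((sysm (ty (p.1 / Q)).2.1 : ℕ) : ℝ) ^ 2 * sysv (ty (p.1 / Q)).2.1 p.2 := by ring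
    _ ≤ 3 * (m : ℝ) ^ 2 * sysv (ty (p.1 / Q)).2.1 p.2 :=
        mul_le_mul_of_nonneg_right (mul_le_mul_of_nonneg_left h3 (by norm_num)) hv

/-- SYS3: constant test functions -/
theorem GG_NB (H : Cst4 τ ty g Q R CF DF Cb m Cq G) (c : ℝ → ℝ) (hK : 1 ≤ K) {ℓst a ℓ : ℝ} {n r : ℕ} {p : Σ _ : ℕ, ℕ × ℕ × ℕ × ℕ} (hp : p ∈ PP ty g Q K)
    (h : NBg (Us τ c Q ℓst p.1) n r (sysN (ty (p.1 / Q)).2.1 K) a ℓ) : NB (GG τ ty c Q ℓst p) n r a ℓ := by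
  obtain ⟨h1, h2⟩ := Finset.mem_sigma.1 hp
  have S := sys_cls17 H hK (Finset.mem_range.1 h1)
  exact fun j hj x hx => (S.fn _ h2).grid _ _ (h j hj x hx)

theorem sysI_ne17 {b K : ℕ} (hb : b = 0 ∨ 2 ≤ b) (hK : 1 ≤ K) : (sysI b K).Nonempty := by
  have h2 : 0 < 2 ^ K := Nat.pow_pos (by norm_num)
  rcases hb with rfl | hb
  · refine ⟨(0, 0, 0, 0), ?_⟩
    unfold sysI
    rw [if_pos rfl]
    simp only [Finset.mem_filter, Finset.mem_product, Finset.mem_singleton, Finset.mem_range]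
    exact ⟨⟨trivial, trivial, hK, h2⟩, by norm_num⟩
  · refine ⟨(1, 0, 0, 0), ?_⟩
    unfold sysI
    rw [if_neg (by omega)]
    unfold Ib
    simp only [Finset.mem_filter, Finset.mem_product, Finset.mem_range]
    exact ⟨⟨by omega, by norm_num, hK, h2⟩, le_rfl, Or.inl ⟨trivial, trivial, trivial⟩⟩

/-- SYS4: numbers -/
theorem PP_nums (H : Cst4 τ ty g Q R CF DF Cb m Cq G) (hK : 1 ≤ K) :
    (PP ty g Q K).Nonempty ∧ ((PP ty g Q K).card : ℝ) ≤ g * Q * m * 2 ^ K ∧ (∑ p ∈ PP ty g Q K, sysv (ty (p.1 / Q)).2.1 p.2) ≤ g * Q * m * K ∧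
    ∀ p ∈ PP ty g Q K, p.1 < g * Q ∧ 1 / (m * 2 ^ K) ≤ sysv (ty (p.1 / Q)).2.1 p.2 ∧ sysv (ty (p.1 / Q)).2.1 p.2 ≤ 1 ∧
      sysN (ty (p.1 / Q)).2.1 K ≤ m * 2 ^ K := by
  have hgQ : 0 < g * Q := Nat.mul_pos H.base.hg H.base.hQ
  have hm : ∀ s < g * Q, sysm (ty (s / Q)).2.1 ≤ m := fun s hs => H.hm _ (Cst.idx_lt hs)
  refine ⟨?_, ?_, ?_, ?_⟩
  · refine Finset.sigma_nonempty.2 ⟨0, Finset.mem_range.2 hgQ, sysI_ne17 ?_ hK⟩
    rcases H.hty _ (Cst.idx_lt hgQ) with h | h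
    · exact Or.inl h.2
    · have h1 := h.hq
      have h2 := h.hpq
      exact Or.inr (by omega)
  · have h1 : (PP ty g Q K).card ≤ g * Q * m * 2 ^ K := by
      unfold PP
      rw [Finset.card_sigma]
      calc ∑ s ∈ Finset.range (g * Q), (sysI (ty (s / Q)).2.1 K).card ≤ ∑ _s ∈ Finset.range (g * Q), m * 2 ^ K := by
            refine Finset.sum_le_sum fun s hs => ?_
            have hs' := Finset.mem_range.1 hs
            exact (sys_cls17 H hK hs').card.trans (Nat.mul_le_mul_right _ (hm s hs'))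
        _ = g * Q * m * 2 ^ K := by rw [Finset.sum_const, Finset.card_range, smul_eq_mul]; ring
    exact_mod_cast h1
  · unfold PP
    rw [Finset.sum_sigma]
    calc ∑ s ∈ Finset.range (g * Q), ∑ q ∈ sysI (ty (s / Q)).2.1 K, sysv (ty (s / Q)).2.1 q ≤ ∑ _s ∈ Finset.range (g * Q), (m : ℝ) * K := by
          refine Finset.sum_le_sum fun s hs => ?_
          have hs' := Finset.mem_range.1 hs
          refine (sys_cls17 H hK hs').v_sum.trans ?_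
          have h1 : ((sysm (ty (s / Q)).2.1 : ℕ) : ℝ) ≤ m := by exact_mod_cast hm s hs'
          exact mul_le_mul_of_nonneg_right h1 (Nat.cast_nonneg _)
      _ = g * Q * m * K := by rw [Finset.sum_const, Finset.card_range, nsmul_eq_mul]; push_cast; ring
  · intro p hp
    obtain ⟨h1, h2⟩ := Finset.mem_sigma.1 hp
    have hs := Finset.mem_range.1 h1
    have S := sys_cls17 H hK hs
    have h3 : ((sysm (ty (p.1 / Q)).2.1 : ℕ) : ℝ) ≤ m := by exact_mod_cast hm _ hs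
    have h4 : (1 : ℝ) ≤ (sysm (ty (p.1 / Q)).2.1 : ℕ) := by exact_mod_cast S.m1
    refine ⟨hs, le_trans ?_ (S.v_lo _ h2), S.v_hi _ h2, S.N2.trans (Nat.mul_le_mul_right _ (hm _ hs))⟩
    have h5 : (0 : ℝ) < (sysm (ty (p.1 / Q)).2.1 : ℕ) * 2 ^ K := by positivity
    exact one_div_le_one_div_of_le h5 (mul_le_mul_of_nonneg_right h3 (by positivity))

end

end Pool.Agent.Helper17.LD4
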